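import Pool.Agent.H48.ER.Targets

set_option autoImplicit false

open Pool.Agent.H48.ER

namespace Pool.Agent.H46.ER

theorem pf_ADD : T_ADD := by
  classical
  intro V _ G v N hG hv hvN hN hcl
  obtain ⟨H, f, hGH, hinj, hc, hcard⟩ := hG
  set f1 : V → ℕ := fun u => if u = v then 0 else f u + 1 with hf1
  have f1v : f1 v = 0 := by simp [hf1]
  have f1u : ∀ u, u ≠ v → f1 u = f u + 1 := fun u hu => by simp [hf1, hu]
  have up1 : ∀ w, w ∈ upper (att (del H v) v N) f1 v → w ∈ N := by
    rintro w ⟨⟨hne, h⟩, _⟩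
    rcases h with h | h | h
    · exact absurd rfl h.1
    · exact h.2
    · exact absurd h.1.symm hne
  have up2 : ∀ u, u ≠ v → ∀ w, w ∈ upper (att (del H v) v N) f1 u →
      w ≠ v ∧ w ∈ upper H f u := by
    rintro u hu w ⟨⟨hne, h⟩, hlt⟩
    have hwv : w ≠ v := by
      rintro rfl
      rw [f1v] at hlt
      exact absurd hlt (Nat.not_lt_zero _)
    refine ⟨hwv, ?_, ?_⟩
    · rcases h with h | h | h
      · exact h.2.2
      · exact absurd h.1 hu
      · exact absurd h.1 hwv
    · rw [f1u u hu, f1u w hwv] at hlt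
      omega
  refine ⟨att (del H v) v N, f1, ?_, ⟨?_, ?_, ?_⟩⟩
  · rintro a b ⟨hne, h⟩
    refine ⟨hne, ?_⟩
    rcases h with h | h | h
    · refine Or.inl ⟨?_, ?_, hGH h⟩
      · rintro rfl
        exact hv _ h
      · rintro rfl
        exact hv _ h.symm
    · exact Or.inr (Or.inl h)
    · exact Or.inr (Or.inr h)
  · intro a b hab
    by_cases ha : a = v <;> by_cases hb : b = v
    · rw [ha, hb]
    · rw [ha, f1v, f1u b hb] at hab
      omega
    · rw [hb, f1v, f1u a ha] at hab
      omega
    · rw [f1u a ha, f1u b hb] at hab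
      exact hinj (by omega)
  · intro t u hu w hw huw
    by_cases ht : t = v
    · subst ht
      have h1 := up1 u hu
      have h2 := up1 w hw
      refine ⟨huw, Or.inl ⟨?_, ?_, hGH (hcl u h1 w h2 huw)⟩⟩
      · rintro rfl
        exact hvN h1
      · rintro rfl
        exact hvN h2
    · have h1 := up2 t ht u hu
      have h2 := up2 t ht w hw
      exact ⟨huw, Or.inl ⟨h1.1, h2.1, hc t u h1.2 w h2.2 huw⟩⟩
  · intro t
    by_cases ht : t = v
    · subst ht
      exact (Set.ncard_le_ncard (fun w hw => up1 w hw) (Set.toFinite _)).trans hN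
    · exact (Set.ncard_le_ncard (fun w hw => (up2 t ht w hw).2) (Set.toFinite _)).trans (hcard t)

end Pool.Agent.H46.ER
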